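import Pool.Agent.SSF.Stmts

/-!
Row EXM of squad SSF (MP_005a41_gt): Dugundji's extension with parameters (edit of `Helper37_LSG/DUG.lean`).
-/

set_option autoImplicit false

open Set Topology
open scoped BigOperators

namespace Pool.Agent.SSF.H11

open Pool.Agent.LSG Pool.Agent.LPR Pool.Agent.SSF

theorem exm_lin {M : Type} (G : M → ℝ) (v : M →₀ ℝ) :
    (v.sum fun a r => r * G a) = Finsupp.linearCombination ℝ G v :=
  (Finsupp.linearCombination_apply ℝ v).symm

theorem exm : ExmStmt := by
  intro M _ A hA hne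
  -- distances
  have hpos : ∀ x : ↥Aᶜ, 0 < Metric.infDist x.1 A := fun x =>
    (hA.notMem_iff_infDist_pos hne).mp x.2
  have hch : ∀ x : ↥Aᶜ, ∃ a ∈ A, dist x.1 a < 2 * Metric.infDist x.1 A := by
    intro x
    exact (Metric.infDist_lt_iff hne).mp (by linarith [hpos x])
  choose a haA had using hch
  -- the partition of unity
  obtain ⟨ρ, hρ⟩ := PartitionOfUnity.exists_isSubordinate (isClosed_univ : IsClosed (univ : Set ↥Aᶜ))
    (fun x : ↥Aᶜ => Metric.ball x (Metric.infDist x.1 A / 4)) (fun x => Metric.isOpen_ball)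
    (fun x _ => mem_iUnion.mpr ⟨x, Metric.mem_ball_self (by linarith [hpos x])⟩)
  have hsum : ∀ (x : ↥Aᶜ) (g : ↥Aᶜ → ℝ),
      ∑ i ∈ ρ.finsupport x, ρ i x • g i = ∑ᶠ i, ρ i x • g i := by
    intro x g
    exact ρ.sum_finsupport_smul_eq_finsum (x₀ := x) (fun i _ => g i)
  classical
  let ν : M → (M →₀ ℝ) := fun x =>
    if h : x ∈ A then Finsupp.single x 1
    else ∑ i ∈ ρ.finsupport ⟨x, h⟩, Finsupp.single (a i) (ρ i ⟨x, h⟩)
  have ν_in : ∀ (x : M), x ∈ A → ν x = Finsupp.single x 1 := fun x h => dif_pos h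
  have ν_out : ∀ (x : M) (h : x ∉ A),
      ν x = ∑ i ∈ ρ.finsupport ⟨x, h⟩, Finsupp.single (a i) (ρ i ⟨x, h⟩) := fun x h => dif_neg h
  have val_in : ∀ (G : M → ℝ) (x : M), x ∈ A → ((ν x).sum fun b r => r * G b) = G x := by
    intro G x h
    rw [exm_lin, ν_in x h, Finsupp.linearCombination_single, one_smul]
  have val_out : ∀ (G : M → ℝ) (x : M) (h : x ∉ A), ((ν x).sum fun b r => r * G b) =
      ∑ i ∈ ρ.finsupport ⟨x, h⟩, ρ i ⟨x, h⟩ • G (a i) := by
    intro G x h
    rw [exm_lin, ν_out x h, map_sum]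
    refine Finset.sum_congr rfl fun i _ => ?_
    rw [Finsupp.linearCombination_single]
  refine ⟨ν, ?_, ?_, ?_, ν_in, ?_⟩
  · intro x b
    by_cases hx : x ∈ A
    · rw [ν_in x hx, Finsupp.single_apply]
      split_ifs
      · exact zero_le_one
      · exact le_rfl
    · rw [ν_out x hx, Finsupp.finsetSum_apply]
      refine Finset.sum_nonneg fun i _ => ?_
      rw [Finsupp.single_apply]
      split_ifs
      · exact ρ.nonneg i _
      · exact le_rfl
  · intro x b hb
    by_contra hbA
    apply hb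
    by_cases hx : x ∈ A
    · rw [ν_in x hx, Finsupp.single_apply, if_neg]
      rintro rfl
      exact hbA hx
    · rw [ν_out x hx, Finsupp.finsetSum_apply]
      refine Finset.sum_eq_zero fun i _ => ?_
      rw [Finsupp.single_apply, if_neg]
      intro h
      exact hbA (h ▸ haA i)
  · intro x
    have h1 : ((ν x).sum fun _ r => r) = ((ν x).sum fun b r => r * (fun _ : M => (1 : ℝ)) b) := by
      simp only [mul_one]
    rw [h1]
    by_cases hx : x ∈ A
    · rw [val_in _ x hx]
    · rw [val_out _ x hx]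
      simp only [smul_eq_mul, mul_one]
      exact ρ.sum_finsupport (mem_univ (⟨x, hx⟩ : ↥Aᶜ))
  · intro S _ g hg
    rw [continuous_iff_continuousAt]
    rintro ⟨s₀, x⟩
    by_cases hx : x ∈ A
    · rw [Metric.continuousAt_iff']
      intro ε hε
      have h0 := hg (s₀, x) (mk_mem_prod (mem_univ s₀) hx)
      have h1 : ∀ᶠ y in 𝓝[univ ×ˢ A] (s₀, x), dist (g y) (g (s₀, x)) < ε :=
        (Metric.tendsto_nhds.mp h0) ε hε
      rw [eventually_nhdsWithin_iff] at h1
      obtain ⟨U, hU, V, hV, hUV⟩ := mem_nhds_prod_iff.mp h1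
      obtain ⟨δ, hδ, hδV⟩ := Metric.mem_nhds_iff.mp hV
      have hfδ : ∀ s ∈ U, ∀ b ∈ A, dist b x < δ → dist (g (s, b)) (g (s₀, x)) < ε := by
        intro s hs b hb hbx
        exact hUV (mk_mem_prod hs (hδV hbx)) (mk_mem_prod (mem_univ s) hb)
      have h2 : U ×ˢ Metric.ball x (δ / 4) ∈ 𝓝 (s₀, x) :=
        prod_mem_nhds hU (Metric.ball_mem_nhds x (by linarith))
      filter_upwards [h2]
      rintro ⟨s, y⟩ hsy
      obtain ⟨hs, hy⟩ := mem_prod.mp hsy
      have hy : dist y x < δ / 4 := hy
      show dist ((ν y).sum fun b r => r * (fun b => g (s, b)) b)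
        ((ν x).sum fun b r => r * (fun b => g (s₀, b)) b) < ε
      rw [val_in (fun b => g (s₀, b)) x hx]
      by_cases hyA : y ∈ A
      · rw [val_in (fun b => g (s, b)) y hyA]
        exact hfδ s hs y hyA (by linarith)
      · rw [val_out (fun b => g (s, b)) y hyA, hsum ⟨y, hyA⟩ (fun i => g (s, a i))]
        have hball : ∑ᶠ i, ρ i ⟨y, hyA⟩ • g (s, a i) ∈ Metric.ball (g (s₀, x)) ε := by
          refine ρ.finsum_smul_mem_convex (mem_univ (⟨y, hyA⟩ : ↥Aᶜ))
            (g := fun i _ => g (s, a i)) (fun i hi => ?_) (convex_ball _ _)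
          have h1 : (⟨y, hyA⟩ : ↥Aᶜ) ∈ Metric.ball i (Metric.infDist i.1 A / 4) :=
            hρ i (subset_tsupport _ hi)
          have h2 : dist y i.1 < Metric.infDist i.1 A / 4 := h1
          have h3 : Metric.infDist i.1 A ≤ dist i.1 x := Metric.infDist_le_dist_of_mem hx
          have h4 : dist i.1 x ≤ dist i.1 y + dist y x := dist_triangle _ _ _
          have h5 : dist (a i) x ≤ dist (a i) i.1 + dist i.1 x := dist_triangle _ _ _
          have h6 := had i
          rw [dist_comm] at h6
          rw [dist_comm y i.1] at h2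
          have h7 : dist (a i) x < δ := by linarith
          exact hfδ s hs (a i) (haA i) h7
        exact hball
    · have hop : IsOpen (Aᶜ) := hA.isOpen_compl
      have hga : ∀ i : ↥Aᶜ, Continuous fun s : S => g (s, a i) := by
        intro i
        have h := hg.comp_continuous (f := fun s : S => (s, a i))
          (continuous_id.prodMk continuous_const) (fun s => mk_mem_prod (mem_univ s) (haA i))
        exact h
      have h1 : Continuous (fun q : S × ↥Aᶜ => ∑ᶠ i, ρ i q.2 • g (q.1, a i)) := by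
        refine continuous_finsum (fun i => ?_) ?_
        · exact ((ρ i).continuous.comp continuous_snd).smul ((hga i).comp continuous_fst)
        · refine (ρ.locallyFinite.preimage_continuous
            (continuous_snd : Continuous (Prod.snd : S × ↥Aᶜ → ↥Aᶜ))).subset fun i q hq => ?_
          rw [Function.mem_support] at hq
          show ρ i q.2 ≠ 0
          intro h0
          apply hq
          rw [h0, zero_smul]
      have hemb : IsOpenEmbedding (Prod.map (id : S → S) (Subtype.val : ↥Aᶜ → M)) :=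
        IsOpenEmbedding.id.prodMap hop.isOpenEmbedding_subtypeVal
      have h2 : (fun q : S × ↥Aᶜ => ∑ᶠ i, ρ i q.2 • g (q.1, a i)) =
          (fun x : S × M => (ν x.2).sum fun b r => r * g (x.1, b)) ∘
            (Prod.map (id : S → S) (Subtype.val : ↥Aᶜ → M)) := by
        funext q
        show _ = (ν q.2.1).sum fun b r => r * (fun b => g (q.1, b)) b
        rw [val_out (fun b => g (q.1, b)) q.2.1 q.2.2]
        exact (hsum q.2 (fun i => g (q.1, a i))).symm
      rw [h2] at h1
      exact (hemb.continuousAt_iff (x := (s₀, ⟨x, hx⟩))).mp h1.continuousAt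

end Pool.Agent.SSF.H11
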